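import Pool.Agent.Helper54.LM.Defs
import Pool.Agent.Helper17.LS.CB

open Filter Topology

namespace Pool.Agent.Helper54.LM

open Pool.Agent.Helper42.LS Pool.Agent.Helper42.LK

theorem LSR_pr_sub {m : ℕ} (k l : Fin m → ℤ) (t : Fin m → ℝ) :
    pr (k - l) t = pr k t - pr l t := by
  unfold pr
  rw [← Finset.sum_sub_distrib]
  refine Finset.sum_congr rfl fun i _ => ?_
  rw [Pi.sub_apply]
  push_cast
  ring

theorem LSR_pr_add {m : ℕ} (k l : Fin m → ℤ) (t : Fin m → ℝ) :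
    pr (k + l) t = pr k t + pr l t := by
  unfold pr
  rw [← Finset.sum_add_distrib]
  refine Finset.sum_congr rfl fun i _ => ?_
  rw [Pi.add_apply]
  push_cast
  ring

theorem LSR_pr_neg {m : ℕ} (k : Fin m → ℤ) (t : Fin m → ℝ) :
    pr (-k) t = - pr k t := by
  unfold pr
  rw [← Finset.sum_neg_distrib]
  refine Finset.sum_congr rfl fun i _ => ?_
  rw [Pi.neg_apply]
  push_cast
  ring

theorem LSR_pr_zero {m : ℕ} (t : Fin m → ℝ) : pr (0 : Fin m → ℤ) t = 0 := by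
  unfold pr
  simp

noncomputable def LSR_F {m : ℕ} (V : Finset ℕ) (w : ℕ → ℝ) (t : ℕ → Fin m → ℝ)
    (k : Fin m → ℤ) : ℝ := ∑ v ∈ V, w v * B2 (pr k (t v))

theorem LSR_F_neg {m : ℕ} (V : Finset ℕ) (w : ℕ → ℝ) (t : ℕ → Fin m → ℝ) (k : Fin m → ℤ) :
    LSR_F V w t (-k) = LSR_F V w t k := by
  unfold LSR_F
  refine Finset.sum_congr rfl fun v _ => ?_
  rw [LSR_pr_neg, CB_B2_neg]

theorem LSR_F_zero {m : ℕ} (V : Finset ℕ) (w : ℕ → ℝ) (t : ℕ → Fin m → ℝ) :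
    LSR_F V w t 0 = (∑ v ∈ V, w v) / 6 := by
  unfold LSR_F
  rw [Finset.sum_div]
  refine Finset.sum_congr rfl fun v _ => ?_
  rw [LSR_pr_zero]
  unfold B2
  rw [Int.fract_zero]
  ring

/-- positive part of the negative -/
noncomputable def LSR_m (x : ℝ) : ℝ := max 0 (-x)

theorem LSR_m_nonneg (x : ℝ) : 0 ≤ LSR_m x := le_max_left _ _

theorem LSR_m_mul (x : ℝ) : LSR_m x * x = -(LSR_m x ^ 2) := by
  unfold LSR_m
  rcases le_total x 0 with h | h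
  · rw [max_eq_right (by linarith)]; ring
  · rw [max_eq_left (by linarith)]; ring

theorem LSR_m_le (x y : ℝ) (hy : 0 ≤ y) (h : x ≤ y) : LSR_m x ≤ y - x := by
  unfold LSR_m
  exact max_le (by linarith) (by linarith)

theorem LSR_m_sq (x y : ℝ) (hy : 0 ≤ y) (h : x ≤ y) : x ^ 2 - y ^ 2 ≤ LSR_m x ^ 2 := by
  unfold LSR_m
  rcases le_total x 0 with h1 | h1
  · rw [max_eq_right (by linarith)]; nlinarith
  · rw [max_eq_left (by linarith)]; nlinarith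

theorem LSR_arith (n W ρ r τ P Q : ℝ) (hW : 0 < W) (hρ : 0 < ρ) (hn : 0 ≤ n)
    (hρn : 40 ≤ ρ * n) (hr0 : 0 < r) (hr1 : ρ ≤ r) (hr2 : r ^ 2 ≤ ρ) (hr3 : r ^ 3 = ρ ^ 2)
    (hτ : τ = r * W / 200) (hP0 : 0 ≤ P) (hP : P ≤ n * W / 6 + n ^ 2 * τ)
    (hQ : ρ * W ^ 2 * n ^ 2 / 180 - n * W ^ 2 / 36 - n ^ 2 * τ ^ 2 ≤ Q)
    (h12 : 12 * Q ^ 2 ≤ W * (2 * τ * P ^ 2 + n * W * Q / 3)) : False := by
  have hn0 : 0 < n := by
    rcases hn.lt_or_eq with h | h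
    · exact h
    · rw [← h] at hρn; linarith
  have hW2 : 0 < W ^ 2 := by positivity
  have hX : 0 < ρ * n ^ 2 * W ^ 2 := by positivity
  -- n W^2 <= rho n^2 W^2 / 40
  have e1 : n * W ^ 2 ≤ ρ * n ^ 2 * W ^ 2 / 40 := by
    have : 0 ≤ (ρ * n - 40) * (n * W ^ 2) :=
      mul_nonneg (by linarith) (by positivity)
    nlinarith
  have e2 : n ^ 2 * τ ^ 2 ≤ ρ * n ^ 2 * W ^ 2 / 40000 := by
    rw [hτ]
    have : 0 ≤ (ρ - r ^ 2) * (n ^ 2 * W ^ 2) :=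
      mul_nonneg (by linarith) (by positivity)
    nlinarith
  have e3 : ρ * n ^ 2 * W ^ 2 / 210 ≤ Q := by
    have e : ρ * W ^ 2 * n ^ 2 = ρ * n ^ 2 * W ^ 2 := by ring
    rw [e] at hQ
    linarith
  have e4 : n * W ≤ n ^ 2 * W * r / 40 := by
    have h1 : 0 ≤ (ρ * n - 40) * (n * W) := mul_nonneg (by linarith) (by positivity)
    have h2 : 0 ≤ (r - ρ) * (n ^ 2 * W) := mul_nonneg (by linarith) (by positivity)
    nlinarith
  have e5 : P ≤ 11 / 1200 * (n ^ 2 * W * r) := by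
    have e : n ^ 2 * τ = n ^ 2 * W * r / 200 := by rw [hτ]; ring
    rw [e] at hP
    linarith
  have e6 : P ^ 2 ≤ (11 / 1200 * (n ^ 2 * W * r)) ^ 2 := pow_le_pow_left₀ hP0 e5 2
  have hτ0 : 0 < τ := by rw [hτ]; positivity
  have e7 : W * (2 * τ * P ^ 2) ≤ 1 / 1000000 * (ρ * n ^ 2 * W ^ 2) ^ 2 := by
    have h1 : W * (2 * τ * P ^ 2) ≤ W * (2 * τ * (11 / 1200 * (n ^ 2 * W * r)) ^ 2) := by
      gcongr
    have h2 : W * (2 * τ * (11 / 1200 * (n ^ 2 * W * r)) ^ 2) =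
        121 / 144000000 * (r ^ 3 * (n ^ 4 * W ^ 4)) := by
      rw [hτ]; ring
    have h3 : (ρ * n ^ 2 * W ^ 2) ^ 2 = r ^ 3 * (n ^ 4 * W ^ 4) := by
      rw [hr3]; ring
    rw [h3]
    have h4 : 0 ≤ r ^ 3 * (n ^ 4 * W ^ 4) := by positivity
    linarith
  have e8 : W * (n * W * Q / 3) ≤ ρ * n ^ 2 * W ^ 2 / 120 * Q := by
    have hQ0 : 0 ≤ Q := le_trans (by positivity) e3
    have : 0 ≤ (ρ * n ^ 2 * W ^ 2 / 40 - n * W ^ 2) * Q := mul_nonneg (by linarith) hQ0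
    nlinarith
  have e9 : 12 * Q ^ 2 ≤ 1 / 1000000 * (ρ * n ^ 2 * W ^ 2) ^ 2 + ρ * n ^ 2 * W ^ 2 / 120 * Q := by
    calc 12 * Q ^ 2 ≤ W * (2 * τ * P ^ 2 + n * W * Q / 3) := h12
      _ = W * (2 * τ * P ^ 2) + W * (n * W * Q / 3) := by ring
      _ ≤ _ := add_le_add e7 e8
  generalize hXd : ρ * n ^ 2 * W ^ 2 = X at *
  have hQ0 : 0 < Q := lt_of_lt_of_le (by positivity) e3
  have f1 : X ≤ 210 * Q := by linarith
  have f2 : X * Q ≤ 210 * Q * Q := mul_le_mul_of_nonneg_right f1 hQ0.le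
  have f3 : X ^ 2 ≤ (210 * Q) ^ 2 := pow_le_pow_left₀ hX.le f1 2
  nlinarith [mul_pos hQ0 hQ0]

theorem LSR_fiber {m : ℕ} (S : Finset (Fin m → ℤ)) (k : Fin m → ℤ) :
    ((S ×ˢ S).filter fun q => q.1 - q.2 = k).card ≤ S.card := by
  refine Finset.card_le_card_of_injOn (fun q => q.1) ?_ ?_
  · intro q hq
    rw [Finset.mem_coe, Finset.mem_filter, Finset.mem_product] at hq
    exact hq.1.1
  · intro q hq q' hq' h
    rw [Finset.mem_coe, Finset.mem_filter, Finset.mem_product] at hq hq'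
    have h1 : q.1 = q'.1 := h
    have h2 : q.2 = q'.2 := by
      have e1 : q.2 = q.1 - k := by rw [← hq.2]; abel
      have e2 : q'.2 = q'.1 - k := by rw [← hq'.2]; abel
      rw [e1, e2, h1]
    exact Prod.ext h1 h2

theorem LSR_diag {m : ℕ} (S : Finset (Fin m → ℤ)) (g : (Fin m → ℤ) → ℝ) (σ : (Fin m → ℤ) → (Fin m → ℤ))
    (hσ : ∀ k, g (σ k) = g k) :
    ∑ p ∈ S ×ˢ S, ∑ q ∈ S ×ˢ S,
      g (p.1 - p.2) * g (q.1 - q.2) * (if q.1 - q.2 = σ (p.1 - p.2) then 1 else 0) ≤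
      S.card * ∑ p ∈ S ×ˢ S, g (p.1 - p.2) ^ 2 := by
  rw [Finset.mul_sum]
  refine Finset.sum_le_sum fun p _ => ?_
  have h1 : ∀ q ∈ S ×ˢ S, g (p.1 - p.2) * g (q.1 - q.2) *
      (if q.1 - q.2 = σ (p.1 - p.2) then (1 : ℝ) else 0) =
      g (p.1 - p.2) ^ 2 * (if q.1 - q.2 = σ (p.1 - p.2) then (1 : ℝ) else 0) := by
    intro q _
    split_ifs with h
    · rw [h, hσ]; ring
    · ring
  rw [Finset.sum_congr rfl h1, ← Finset.mul_sum, Finset.sum_boole]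
  have h2 := LSR_fiber S (σ (p.1 - p.2))
  have h3 : (((S ×ˢ S).filter fun q => q.1 - q.2 = σ (p.1 - p.2)).card : ℝ) ≤ S.card := by
    exact_mod_cast h2
  rw [mul_comm (S.card : ℝ)]
  exact mul_le_mul_of_nonneg_left h3 (sq_nonneg _)

theorem LSR_off {m : ℕ} (S : Finset (Fin m → ℤ)) (A B : ℝ) :
    ∑ p ∈ S ×ˢ S, (A + if p.1 = p.2 then B else 0) = (S.card : ℝ) ^ 2 * A + S.card * B := by
  rw [Finset.sum_add_distrib, Finset.sum_const, Finset.card_product, nsmul_eq_mul,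
    Finset.sum_product]
  have h : ∀ a ∈ S, ∑ b ∈ S, (if a = b then B else 0) = B := by
    intro a ha
    rw [Finset.sum_ite_eq, if_pos ha]
  rw [Finset.sum_congr rfl h, Finset.sum_const, nsmul_eq_mul]
  push_cast
  ring

theorem LSR_core {m : ℕ} (S : Finset (Fin m → ℤ)) (F : (Fin m → ℤ) → ℝ) (W ρ r τ : ℝ)
    (hW : 0 < W) (hρ : 0 < ρ) (hρn : 40 ≤ ρ * S.card) (hr0 : 0 < r) (hr1 : ρ ≤ r)
    (hr2 : r ^ 2 ≤ ρ) (hr3 : r ^ 3 = ρ ^ 2) (hτ : τ = r * W / 200)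
    (h0 : F 0 = W / 6) (hneg : ∀ k, F (-k) = F k)
    (h1 : 0 ≤ ∑ p ∈ S ×ˢ S, F (p.1 - p.2))
    (h2 : ρ * W ^ 2 * (S.card : ℝ) ^ 2 / 180 ≤ ∑ p ∈ S ×ˢ S, F (p.1 - p.2) ^ 2)
    (h3 : ∀ β : (Fin m → ℤ) × (Fin m → ℤ) → ℝ,
      12 * (∑ p ∈ S ×ˢ S, β p * F (p.1 - p.2)) ^ 2 ≤ W * ∑ p ∈ S ×ˢ S, ∑ q ∈ S ×ˢ S,
        β p * β q * (F ((p.1 - p.2) - (q.1 - q.2)) + F ((p.1 - p.2) + (q.1 - q.2))))
    (hs : ∀ a₁ ∈ S, ∀ a₂ ∈ S, ∀ b₁ ∈ S, ∀ b₂ ∈ S, a₁ + a₂ - b₁ - b₂ ≠ 0 →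
      F (a₁ + a₂ - b₁ - b₂) < τ) : False := by
  classical
  have hτ0 : 0 < τ := by rw [hτ]; positivity
  -- values on S - S
  have hd : ∀ p ∈ S ×ˢ S, F (p.1 - p.2) ≤ τ + if p.1 = p.2 then W / 6 else 0 := by
    intro p hp
    rw [Finset.mem_product] at hp
    split_ifs with h
    · rw [h, sub_self, h0]; linarith
    · have h' := hs p.1 hp.1 p.1 hp.1 p.2 hp.2 p.1 hp.1
      have e : p.1 + p.1 - p.2 - p.1 = p.1 - p.2 := by abel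
      rw [e] at h'
      have := h' (sub_ne_zero.mpr h)
      linarith
  have hd2 : ∀ p ∈ S ×ˢ S, F (p.1 - p.2) ^ 2 ≤ LSR_m (F (p.1 - p.2)) ^ 2 +
      (τ ^ 2 + if p.1 = p.2 then W ^ 2 / 36 else 0) := by
    intro p hp
    rw [Finset.mem_product] at hp
    split_ifs with h
    · rw [h, sub_self, h0]
      nlinarith [sq_nonneg (LSR_m (W / 6)), sq_nonneg τ]
    · have h' := hs p.1 hp.1 p.1 hp.1 p.2 hp.2 p.1 hp.1
      have e : p.1 + p.1 - p.2 - p.1 = p.1 - p.2 := by abel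
      rw [e] at h'
      have := LSR_m_sq _ τ hτ0.le (h' (sub_ne_zero.mpr h)).le
      linarith
  set P := ∑ p ∈ S ×ˢ S, LSR_m (F (p.1 - p.2)) with hPdef
  set Q := ∑ p ∈ S ×ˢ S, LSR_m (F (p.1 - p.2)) ^ 2 with hQdef
  have hP0 : 0 ≤ P := Finset.sum_nonneg fun p _ => LSR_m_nonneg _
  have hP : P ≤ S.card * W / 6 + (S.card : ℝ) ^ 2 * τ := by
    have e1 : P ≤ ∑ p ∈ S ×ˢ S, ((τ + if p.1 = p.2 then W / 6 else 0) - F (p.1 - p.2)) := by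
      refine Finset.sum_le_sum fun p hp => LSR_m_le _ _ ?_ (hd p hp)
      split_ifs
      · positivity
      · linarith
    rw [Finset.sum_sub_distrib, LSR_off] at e1
    linarith
  have hQ : ρ * W ^ 2 * (S.card : ℝ) ^ 2 / 180 - S.card * W ^ 2 / 36 - (S.card : ℝ) ^ 2 * τ ^ 2
      ≤ Q := by
    have e1 := Finset.sum_le_sum hd2
    rw [Finset.sum_add_distrib, LSR_off] at e1
    linarith
  have h12 : 12 * Q ^ 2 ≤ W * (2 * τ * P ^ 2 + S.card * W * Q / 3) := by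
    have e1 := h3 fun p => LSR_m (F (p.1 - p.2))
    have e2 : ∑ p ∈ S ×ˢ S, LSR_m (F (p.1 - p.2)) * F (p.1 - p.2) = -Q := by
      rw [hQdef, ← Finset.sum_neg_distrib]
      exact Finset.sum_congr rfl fun p _ => LSR_m_mul _
    rw [e2] at e1
    have e3 : ∑ p ∈ S ×ˢ S, ∑ q ∈ S ×ˢ S,
        LSR_m (F (p.1 - p.2)) * LSR_m (F (q.1 - q.2)) *
          (F ((p.1 - p.2) - (q.1 - q.2)) + F ((p.1 - p.2) + (q.1 - q.2))) ≤
        ∑ p ∈ S ×ˢ S, ∑ q ∈ S ×ˢ S, (2 * τ * (LSR_m (F (p.1 - p.2)) * LSR_m (F (q.1 - q.2))) +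
          W / 6 * (LSR_m (F (p.1 - p.2)) * LSR_m (F (q.1 - q.2)) *
            (if q.1 - q.2 = id (p.1 - p.2) then 1 else 0)) +
          W / 6 * (LSR_m (F (p.1 - p.2)) * LSR_m (F (q.1 - q.2)) *
            (if q.1 - q.2 = -(p.1 - p.2) then 1 else 0))) := by
      refine Finset.sum_le_sum fun p hp => Finset.sum_le_sum fun q hq => ?_
      rw [Finset.mem_product] at hp hq
      have g0 : 0 ≤ LSR_m (F (p.1 - p.2)) * LSR_m (F (q.1 - q.2)) :=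
        mul_nonneg (LSR_m_nonneg _) (LSR_m_nonneg _)
      have g1 : F ((p.1 - p.2) - (q.1 - q.2)) ≤
          τ + W / 6 * (if q.1 - q.2 = id (p.1 - p.2) then 1 else 0) := by
        split_ifs with h
        · rw [h, id, sub_self, h0]; linarith
        · have h' := hs p.1 hp.1 q.2 hq.2 p.2 hp.2 q.1 hq.1
          have e : p.1 + q.2 - p.2 - q.1 = (p.1 - p.2) - (q.1 - q.2) := by abel
          rw [e] at h'
          have h4 : (p.1 - p.2) - (q.1 - q.2) ≠ 0 := fun h5 => h (sub_eq_zero.mp h5).symm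
          have := h' h4
          linarith
      have g2 : F ((p.1 - p.2) + (q.1 - q.2)) ≤
          τ + W / 6 * (if q.1 - q.2 = -(p.1 - p.2) then 1 else 0) := by
        split_ifs with h
        · rw [h, add_neg_cancel, h0]; linarith
        · have h' := hs p.1 hp.1 q.1 hq.1 p.2 hp.2 q.2 hq.2
          have e : p.1 + q.1 - p.2 - q.2 = (p.1 - p.2) + (q.1 - q.2) := by abel
          rw [e] at h'
          have h4 : (p.1 - p.2) + (q.1 - q.2) ≠ 0 := fun h5 => h (eq_neg_of_add_eq_zero_right h5)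
          have := h' h4
          linarith
      have g3 := mul_le_mul_of_nonneg_left (add_le_add g1 g2) g0
      refine g3.trans (le_of_eq ?_)
      ring
    have e4 : ∑ p ∈ S ×ˢ S, ∑ q ∈ S ×ˢ S, (2 * τ * (LSR_m (F (p.1 - p.2)) * LSR_m (F (q.1 - q.2))) +
          W / 6 * (LSR_m (F (p.1 - p.2)) * LSR_m (F (q.1 - q.2)) *
            (if q.1 - q.2 = id (p.1 - p.2) then 1 else 0)) +
          W / 6 * (LSR_m (F (p.1 - p.2)) * LSR_m (F (q.1 - q.2)) *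
            (if q.1 - q.2 = -(p.1 - p.2) then 1 else 0))) =
        2 * τ * P ^ 2 + W / 6 * (∑ p ∈ S ×ˢ S, ∑ q ∈ S ×ˢ S,
          LSR_m (F (p.1 - p.2)) * LSR_m (F (q.1 - q.2)) *
            (if q.1 - q.2 = id (p.1 - p.2) then 1 else 0)) +
          W / 6 * (∑ p ∈ S ×ˢ S, ∑ q ∈ S ×ˢ S,
          LSR_m (F (p.1 - p.2)) * LSR_m (F (q.1 - q.2)) *
            (if q.1 - q.2 = -(p.1 - p.2) then 1 else 0)) := by
      simp only [Finset.sum_add_distrib, ← Finset.mul_sum]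
      rw [hPdef, sq, Finset.sum_mul]
    have e5 := LSR_diag S (fun k => LSR_m (F k)) id (fun k => rfl)
    have e6 := LSR_diag S (fun k => LSR_m (F k)) (fun k => -k) (fun k => by
      show LSR_m (F (-k)) = LSR_m (F k)
      rw [hneg])
    have e7 : 12 * (-Q) ^ 2 ≤ W * (2 * τ * P ^ 2 + W / 6 * (S.card * Q) +
        W / 6 * (S.card * Q)) := by
      refine e1.trans (mul_le_mul_of_nonneg_left (e3.trans ?_) hW.le)
      rw [e4]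
      gcongr
    calc 12 * Q ^ 2 = 12 * (-Q) ^ 2 := by ring
      _ ≤ _ := e7
      _ = _ := by ring
  exact LSR_arith S.card W ρ r τ P Q hW hρ (Nat.cast_nonneg _) hρn hr0 hr1 hr2 hr3 hτ hP0 hP hQ h12

theorem LSR_rpow (ρ : ℝ) (hρ : 0 < ρ) (h1 : ρ ≤ 1) :
    0 < ρ ^ (2 / 3 : ℝ) ∧ ρ ≤ ρ ^ (2 / 3 : ℝ) ∧ (ρ ^ (2 / 3 : ℝ)) ^ 2 ≤ ρ ∧
      (ρ ^ (2 / 3 : ℝ)) ^ 3 = ρ ^ 2 := by
  refine ⟨Real.rpow_pos_of_pos hρ _, ?_, ?_, ?_⟩
  · have := Real.rpow_le_rpow_of_exponent_ge hρ h1 (show (2 / 3 : ℝ) ≤ 1 by norm_num)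
    rwa [Real.rpow_one] at this
  · rw [← Real.rpow_natCast, ← Real.rpow_mul hρ.le]
    have := Real.rpow_le_rpow_of_exponent_ge hρ h1
      (show (1 : ℝ) ≤ 2 / 3 * ((2 : ℕ) : ℝ) by norm_num)
    rwa [Real.rpow_one] at this
  · rw [← Real.rpow_natCast, ← Real.rpow_mul hρ.le]
    rw [show (2 / 3 : ℝ) * ((3 : ℕ) : ℝ) = ((2 : ℕ) : ℝ) by norm_num, Real.rpow_natCast]

theorem LSR_h1 (hB : ST_LBC) {m : ℕ} (S : Finset (Fin m → ℤ)) (V : Finset ℕ) (w : ℕ → ℝ)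
    (t : ℕ → Fin m → ℝ) (hw : ∀ v ∈ V, 0 ≤ w v) :
    0 ≤ ∑ p ∈ S ×ˢ S, LSR_F V w t (p.1 - p.2) := by
  unfold LSR_F
  rw [Finset.sum_comm]
  refine Finset.sum_nonneg fun v hv => ?_
  rw [← Finset.mul_sum]
  refine mul_nonneg (hw v hv) ?_
  rw [Finset.sum_product]
  have h := (hB (Fin m → ℤ) S (fun k => pr k (t v)) (fun k => pr k (t v))).1
  simpa only [LSR_pr_sub] using h

theorem LSR_h2 (hB : ST_LBC) {m : ℕ} (S : Finset (Fin m → ℤ)) (V : Finset ℕ) (w : ℕ → ℝ)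
    (t : ℕ → Fin m → ℝ) (hw : ∀ v ∈ V, 0 ≤ w v) :
    (∑ v ∈ V, w v ^ 2) * (S.card : ℝ) ^ 2 / 180 ≤ ∑ p ∈ S ×ˢ S, LSR_F V w t (p.1 - p.2) ^ 2 := by
  have e1 : ∑ p ∈ S ×ˢ S, LSR_F V w t (p.1 - p.2) ^ 2 =
      ∑ v ∈ V, ∑ u ∈ V, w v * w u *
        ∑ p ∈ S ×ˢ S, B2 (pr p.1 (t v) - pr p.2 (t v)) * B2 (pr p.1 (t u) - pr p.2 (t u)) := by
    have e2 : ∀ p ∈ S ×ˢ S, LSR_F V w t (p.1 - p.2) ^ 2 = ∑ v ∈ V, ∑ u ∈ V, w v * w u *
        (B2 (pr p.1 (t v) - pr p.2 (t v)) * B2 (pr p.1 (t u) - pr p.2 (t u))) := by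
      intro p _
      unfold LSR_F
      rw [sq, Finset.sum_mul_sum]
      refine Finset.sum_congr rfl fun v _ => Finset.sum_congr rfl fun u _ => ?_
      rw [LSR_pr_sub, LSR_pr_sub]
      ring
    rw [Finset.sum_congr rfl e2, Finset.sum_comm]
    refine Finset.sum_congr rfl fun v _ => ?_
    rw [Finset.sum_comm]
    refine Finset.sum_congr rfl fun u _ => ?_
    rw [Finset.mul_sum]
  rw [e1, Finset.sum_mul, Finset.sum_div]
  refine Finset.sum_le_sum fun v hv => ?_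
  have e3 : w v * w v *
        ∑ p ∈ S ×ˢ S, B2 (pr p.1 (t v) - pr p.2 (t v)) * B2 (pr p.1 (t v) - pr p.2 (t v)) ≤
      ∑ u ∈ V, w v * w u *
        ∑ p ∈ S ×ˢ S, B2 (pr p.1 (t v) - pr p.2 (t v)) * B2 (pr p.1 (t u) - pr p.2 (t u)) := by
    refine Finset.single_le_sum (f := fun u => w v * w u *
        ∑ p ∈ S ×ˢ S, B2 (pr p.1 (t v) - pr p.2 (t v)) * B2 (pr p.1 (t u) - pr p.2 (t u)))
        (fun u hu => ?_) hv
    refine mul_nonneg (mul_nonneg (hw v hv) (hw u hu)) ?_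
    rw [Finset.sum_product]
    exact (hB (Fin m → ℤ) S (fun k => pr k (t v)) (fun k => pr k (t u))).2.2.1
  refine le_trans ?_ e3
  have e4 := (hB (Fin m → ℤ) S (fun k => pr k (t v)) (fun k => pr k (t v))).2.2.2
  have e5 : ∑ p ∈ S ×ˢ S, B2 (pr p.1 (t v) - pr p.2 (t v)) * B2 (pr p.1 (t v) - pr p.2 (t v)) =
      ∑ a ∈ S, ∑ b ∈ S, B2 (pr a (t v) - pr b (t v)) ^ 2 := by
    rw [Finset.sum_product]
    refine Finset.sum_congr rfl fun a _ => Finset.sum_congr rfl fun b _ => ?_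
    ring
  rw [e5]
  calc w v ^ 2 * (S.card : ℝ) ^ 2 / 180 = w v * w v * ((S.card : ℝ) ^ 2 / 180) := by ring
    _ ≤ _ := mul_le_mul_of_nonneg_left e4 (mul_nonneg (hw v hv) (hw v hv))

theorem LSR_h3 (hK : ST_LBK) {m : ℕ} (S : Finset (Fin m → ℤ)) (V : Finset ℕ) (w : ℕ → ℝ)
    (t : ℕ → Fin m → ℝ) (hw : ∀ v ∈ V, 0 ≤ w v) (β : (Fin m → ℤ) × (Fin m → ℤ) → ℝ) :
    12 * (∑ p ∈ S ×ˢ S, β p * LSR_F V w t (p.1 - p.2)) ^ 2 ≤
      (∑ v ∈ V, w v) * ∑ p ∈ S ×ˢ S, ∑ q ∈ S ×ˢ S, β p * β q *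
        (LSR_F V w t ((p.1 - p.2) - (q.1 - q.2)) + LSR_F V w t ((p.1 - p.2) + (q.1 - q.2))) := by
  have e1 : ∑ p ∈ S ×ˢ S, β p * LSR_F V w t (p.1 - p.2) =
      ∑ v ∈ V, w v * ∑ p ∈ S ×ˢ S, β p * B2 (pr (p.1 - p.2) (t v)) := by
    unfold LSR_F
    simp only [Finset.mul_sum]
    rw [Finset.sum_comm]
    refine Finset.sum_congr rfl fun v _ => Finset.sum_congr rfl fun p _ => ?_
    ring
  have e2 : (∑ v ∈ V, w v * ∑ p ∈ S ×ˢ S, β p * B2 (pr (p.1 - p.2) (t v))) ^ 2 ≤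
      (∑ v ∈ V, w v) * ∑ v ∈ V, w v * (∑ p ∈ S ×ˢ S, β p * B2 (pr (p.1 - p.2) (t v))) ^ 2 := by
    refine Finset.sum_sq_le_sum_mul_sum_of_sq_le_mul V hw
      (fun v hv => mul_nonneg (hw v hv) (sq_nonneg _)) (fun v _ => le_of_eq ?_)
    ring
  have e3 : 12 * ∑ v ∈ V, w v * (∑ p ∈ S ×ˢ S, β p * B2 (pr (p.1 - p.2) (t v))) ^ 2 ≤
      ∑ p ∈ S ×ˢ S, ∑ q ∈ S ×ˢ S, β p * β q *
        (LSR_F V w t ((p.1 - p.2) - (q.1 - q.2)) + LSR_F V w t ((p.1 - p.2) + (q.1 - q.2))) := by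
    have e4 : ∑ p ∈ S ×ˢ S, ∑ q ∈ S ×ˢ S, β p * β q *
        (LSR_F V w t ((p.1 - p.2) - (q.1 - q.2)) + LSR_F V w t ((p.1 - p.2) + (q.1 - q.2))) =
        ∑ v ∈ V, w v * ∑ p ∈ S ×ˢ S, ∑ q ∈ S ×ˢ S, β p * β q *
          (B2 (pr (p.1 - p.2) (t v) - pr (q.1 - q.2) (t v)) +
            B2 (pr (p.1 - p.2) (t v) + pr (q.1 - q.2) (t v))) := by
      have e5 : ∀ p q : (Fin m → ℤ) × (Fin m → ℤ), β p * β q *
          (LSR_F V w t ((p.1 - p.2) - (q.1 - q.2)) + LSR_F V w t ((p.1 - p.2) + (q.1 - q.2))) =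
          ∑ v ∈ V, w v * (β p * β q * (B2 (pr (p.1 - p.2) (t v) - pr (q.1 - q.2) (t v)) +
            B2 (pr (p.1 - p.2) (t v) + pr (q.1 - q.2) (t v)))) := by
        intro p q
        unfold LSR_F
        rw [← Finset.sum_add_distrib, Finset.mul_sum]
        refine Finset.sum_congr rfl fun v _ => ?_
        rw [LSR_pr_sub (p.1 - p.2) (q.1 - q.2), LSR_pr_add (p.1 - p.2) (q.1 - q.2)]
        ring
      simp only [e5]
      have e6 : ∀ p ∈ S ×ˢ S, ∑ q ∈ S ×ˢ S, ∑ v ∈ V, w v * (β p * β q *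
          (B2 (pr (p.1 - p.2) (t v) - pr (q.1 - q.2) (t v)) +
            B2 (pr (p.1 - p.2) (t v) + pr (q.1 - q.2) (t v)))) =
          ∑ v ∈ V, ∑ q ∈ S ×ˢ S, w v * (β p * β q *
          (B2 (pr (p.1 - p.2) (t v) - pr (q.1 - q.2) (t v)) +
            B2 (pr (p.1 - p.2) (t v) + pr (q.1 - q.2) (t v)))) := by
        intro p _
        rw [Finset.sum_comm]
      rw [Finset.sum_congr rfl e6, Finset.sum_comm]
      refine Finset.sum_congr rfl fun v _ => ?_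
      rw [Finset.mul_sum]
      refine Finset.sum_congr rfl fun p _ => ?_
      rw [Finset.mul_sum]
    rw [e4, Finset.mul_sum]
    refine Finset.sum_le_sum fun v hv => ?_
    have e7 := hK ((Fin m → ℤ) × (Fin m → ℤ)) (S ×ˢ S) (fun p => pr (p.1 - p.2) (t v)) β
    calc 12 * (w v * (∑ p ∈ S ×ˢ S, β p * B2 (pr (p.1 - p.2) (t v))) ^ 2) =
        w v * (12 * (∑ p ∈ S ×ˢ S, β p * B2 (pr (p.1 - p.2) (t v))) ^ 2) := by ring
      _ ≤ _ := mul_le_mul_of_nonneg_left e7 (hw v hv)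
  have hW0 : 0 ≤ ∑ v ∈ V, w v := Finset.sum_nonneg hw
  rw [e1]
  calc 12 * (∑ v ∈ V, w v * ∑ p ∈ S ×ˢ S, β p * B2 (pr (p.1 - p.2) (t v))) ^ 2 ≤
      12 * ((∑ v ∈ V, w v) * ∑ v ∈ V, w v *
        (∑ p ∈ S ×ˢ S, β p * B2 (pr (p.1 - p.2) (t v))) ^ 2) := by linarith
    _ = (∑ v ∈ V, w v) * (12 * ∑ v ∈ V, w v *
        (∑ p ∈ S ×ˢ S, β p * B2 (pr (p.1 - p.2) (t v))) ^ 2) := by ring
    _ ≤ _ := mul_le_mul_of_nonneg_left e3 hW0

theorem st_LSR (hB : ST_LBC) (hK : ST_LBK) : ST_LSR := by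
  refine ⟨1 / 200, 40, by norm_num, by norm_num, ?_⟩
  intro m S V w t ρ hw hW hρ hρW hC
  by_contra hcon
  push Not at hcon
  have hρ1 : ρ ≤ 1 := by
    have h1 : ∑ v ∈ V, w v ^ 2 ≤ (∑ v ∈ V, w v) ^ 2 := by
      rw [sq (∑ v ∈ V, w v), Finset.sum_mul]
      refine Finset.sum_le_sum fun v hv => ?_
      rw [sq]
      exact mul_le_mul_of_nonneg_left (Finset.single_le_sum hw hv) (hw v hv)
    have h2 : 0 < (∑ v ∈ V, w v) ^ 2 := by positivity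
    by_contra h3
    push Not at h3
    nlinarith
  obtain ⟨r0, r1, r2, r3⟩ := LSR_rpow ρ hρ hρ1
  refine LSR_core S (LSR_F V w t) (∑ v ∈ V, w v) ρ (ρ ^ (2 / 3 : ℝ))
    (ρ ^ (2 / 3 : ℝ) * (∑ v ∈ V, w v) / 200) hW hρ hC r0 r1 r2 r3 rfl
    (LSR_F_zero V w t) (LSR_F_neg V w t) (LSR_h1 hB S V w t hw) ?_ (LSR_h3 hK S V w t hw) ?_
  · refine le_trans ?_ (LSR_h2 hB S V w t hw)
    have : 0 ≤ (S.card : ℝ) ^ 2 := by positivity
    have h5 := mul_le_mul_of_nonneg_right hρW this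
    linarith
  · intro a₁ h1 a₂ h2 b₁ h3 b₂ h4 h5
    have h6 := hcon a₁ h1 a₂ h2 b₁ h3 b₂ h4 h5
    have e : 1 / 200 * (ρ ^ (2 / 3 : ℝ) * ∑ v ∈ V, w v) =
      ρ ^ (2 / 3 : ℝ) * (∑ v ∈ V, w v) / 200 := by ring
    rw [e] at h6
    exact h6

end Pool.Agent.Helper54.LM
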